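import Mathlib

set_option autoImplicit false

namespace Pool.Agent.Work.MP_af2786_co

open Finset

/-! ### The label rule on types -/

/-- The label rule with threshold `s`, depending on the class sizes `t 0, t 1` only. -/
def lab (s : ℕ) (t : Fin 3 → ℕ) : Fin 3 :=
  if s ≤ t 0 / 2 ∧ ¬ (t 0 / 2 = s ∧ t 1 / 2 + 1 = s) then 0
  else if t 0 / 2 < s ∧ s ≤ t 1 / 2 then 1
  else 2

theorem lab_large (s : ℕ) (t : Fin 3 → ℕ) (h : 6 * s ≤ t 0 + t 1 + t 2) :
    s ≤ t (lab s t) := by
  unfold lab
  split_ifs with h1 h2 <;> omega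

theorem lab_not_all (s : ℕ) (t : Fin 3 → ℕ) :
    ∃ i : Fin 3, lab s (fun j => t j + if j = i then 2 else 0) ≠ i := by
  by_contra hcon
  push Not at hcon
  have h0 := hcon 0
  have h1 := hcon 1
  have h2 := hcon 2
  simp only [lab, Fin.isValue, if_true, if_false, Fin.reduceEq, add_zero] at h0 h1 h2
  split_ifs at h0 h1 h2 <;> omega

/-! ### The random colourings -/

section space

variable (V : Type) (L : ℕ)

/-- The probability space: at level `0` a colouring of pairs (set, vertex) by `ZMod L`, and at
each higher level one more colouring of pairs (set, vertex) by `Fin 3`. -/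
def Om : ℕ → Type
  | 0 => Finset V → V → ZMod L
  | r + 1 => (Finset V → V → Fin 3) × Om r

end space

variable {V : Type} [DecidableEq V] {L : ℕ}

/-- The colouring of the base level. -/
def base (ω : Om V L 0) : Finset V → V → ZMod L := ω

/-- The colouring of a higher level. -/
def top {r : ℕ} (ω : Om V L (r + 1)) : Finset V → V → Fin 3 := ω.1

/-- The lower levels. -/
def rest {r : ℕ} (ω : Om V L (r + 1)) : Om V L r := ω.2

/-- Resample the coordinates that involve the vertex `v`. -/
def mixC {α : Type} (v : V) (η ω : Finset V → V → α) : Finset V → V → α :=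
  fun Q u => if v ∈ Q ∨ u = v then η Q u else ω Q u

/-- Resample the coordinates that involve the vertex `v`, on all levels. -/
def mix (v : V) : ∀ r : ℕ, Om V L r → Om V L r → Om V L r
  | 0, η, ω => mixC v η ω
  | r + 1, η, ω => (mixC v η.1 ω.1, mix v r η.2 ω.2)

/-- The colour class `j` of `M` in context `Q`. -/
def cls (c : Finset V → V → Fin 3) (Q M : Finset V) (j : Fin 3) : Finset V :=
  M.filter (fun u => c Q u = j)

/-- The nested systems. -/
def F (s : ℕ) : ∀ r : ℕ, Om V L r → Finset V → Finset V → Prop
  | 0, ω, Q, M => (∑ u ∈ M, base ω Q u = 0) ∨ ∃ j : ZMod L, ∀ u ∈ M, base ω Q u ≠ j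
  | r + 1, ω, Q, M => ∃ j : Fin 3,
      lab (s * 6 ^ r) (fun i => (cls (top ω) Q M i).card + if i = j then 1 else 0) = j ∧
      F s r (rest ω) (Q ∪ (M \ cls (top ω) Q M j)) (cls (top ω) Q M j)

theorem cls_card_sum (c : Finset V → V → Fin 3) (Q M : Finset V) :
    (cls c Q M 0).card + (cls c Q M 1).card + (cls c Q M 2).card = M.card := by
  have h := Finset.card_eq_sum_card_fiberwise (f := fun u => c Q u) (s := M)
    (t := (Finset.univ : Finset (Fin 3))) (fun x _ => Finset.mem_coe.2 (Finset.mem_univ _))
  rw [h, Fin.sum_univ_three]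
  rfl

theorem cls_erase_same (c : Finset V → V → Fin 3) (Q M : Finset V) (u : V) (j : Fin 3) :
    cls c Q (M.erase u) j = (cls c Q M j).erase u := by
  unfold cls
  ext x
  simp only [Finset.mem_filter, Finset.mem_erase]
  tauto

theorem cls_erase_ne (c : Finset V → V → Fin 3) (Q M : Finset V) (u : V) (i : Fin 3)
    (h : u ∉ cls c Q M i) : cls c Q (M.erase u) i = cls c Q M i := by
  rw [cls_erase_same, Finset.erase_eq_of_notMem h]

/-- Covering: every large set contains a member obtained by deleting one vertex. -/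
theorem cover (s : ℕ) (hs : 1 ≤ s) : ∀ (r : ℕ) (ω : Om V L r) (Q X : Finset V),
    s * 6 ^ r ≤ X.card → ∃ u ∈ X, F s r ω Q (X.erase u) := by
  intro r
  induction r with
  | zero =>
    intro ω Q X hX
    have hX1 : 1 ≤ X.card := by
      rw [pow_zero, mul_one] at hX; omega
    by_cases hall : ∀ j : ZMod L, ∃ u ∈ X, base ω Q u = j
    · obtain ⟨u, hu, huj⟩ := hall (∑ u ∈ X, base ω Q u)
      refine ⟨u, hu, Or.inl ?_⟩
      have := Finset.add_sum_erase X (fun u => base ω Q u) hu
      rw [huj] at this
      exact left_eq_add.mp this.symm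
    · push Not at hall
      obtain ⟨j, hj⟩ := hall
      obtain ⟨u, hu⟩ := Finset.card_pos.1 (show 0 < X.card by omega)
      exact ⟨u, hu, Or.inr ⟨j, fun w hw => hj w (Finset.mem_of_mem_erase hw)⟩⟩
  | succ r ih =>
    intro ω Q X hX
    set θ := s * 6 ^ r with hθ
    set j := lab θ (fun i => (cls (top ω) Q X i).card) with hj
    have hsum := cls_card_sum (top ω) Q X
    have h6 : 6 * θ ≤ (cls (top ω) Q X 0).card + (cls (top ω) Q X 1).card + (cls (top ω) Q X 2).card := by
      rw [hsum, hθ]
      calc 6 * (s * 6 ^ r) = s * 6 ^ (r + 1) := by ring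
        _ ≤ _ := hX
    have hlarge := lab_large θ (fun i => (cls (top ω) Q X i).card) h6
    obtain ⟨u, hu, hF⟩ := ih (rest ω) (Q ∪ (X \ cls (top ω) Q X j)) (cls (top ω) Q X j) hlarge
    have huX : u ∈ X := (Finset.mem_filter.1 hu).1
    have huc : top ω Q u = j := (Finset.mem_filter.1 hu).2
    refine ⟨u, huX, j, ?_, ?_⟩
    · have hfun : (fun i => (cls (top ω) Q (X.erase u) i).card + if i = j then 1 else 0)
          = (fun i => (cls (top ω) Q X i).card) := by
        funext i
        by_cases hij : i = j
        · subst hij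
          rw [if_pos rfl, cls_erase_same, Finset.card_erase_add_one hu]
        · rw [if_neg hij, cls_erase_ne]
          · rfl
          · intro hmem
            exact hij ((Finset.mem_filter.1 hmem).2.symm.trans huc)
      rw [hfun]
    · have h1 : cls (top ω) Q (X.erase u) j = (cls (top ω) Q X j).erase u := cls_erase_same _ _ _ _ _
      have h2 : (X.erase u) \ (cls (top ω) Q X j).erase u = X \ cls (top ω) Q X j := by
        ext x
        simp only [Finset.mem_sdiff, Finset.mem_erase]
        constructor
        · rintro ⟨⟨hx, hxX⟩, hx2⟩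
          exact ⟨hxX, fun h => hx2 ⟨hx, h⟩⟩
        · rintro ⟨hxX, hx2⟩
          have hxu : x ≠ u := fun h => hx2 (h ▸ hu)
          exact ⟨⟨hxu, hxX⟩, fun h => hx2 h.2⟩
      rw [h1, h2]
      exact hF

/-- `F` does not depend on the coordinates involving an outside vertex. -/
theorem F_mix (s : ℕ) : ∀ (r : ℕ) (v : V) (η ω : Om V L r) (Q M : Finset V),
    v ∉ Q → v ∉ M → (F s r (mix v r η ω) Q M ↔ F s r ω Q M) := by
  intro r
  induction r with
  | zero =>
    intro v η ω Q M hQ hM
    have hc : ∀ u ∈ M, base (mix v 0 η ω) Q u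
        = base ω Q u := by
      intro u hu
      have : ¬ (v ∈ Q ∨ u = v) := by
        rintro (h | h)
        · exact hQ h
        · exact hM (h ▸ hu)
      exact if_neg this
    simp only [F]
    rw [Finset.sum_congr rfl hc]
    have : ∀ j : ZMod L, (∀ u ∈ M, base (mix v 0 η ω) Q u ≠ j) ↔
        (∀ u ∈ M, base ω Q u ≠ j) := by
      intro j
      constructor
      · intro h u hu
        rw [← hc u hu]; exact h u hu
      · intro h u hu
        rw [hc u hu]; exact h u hu
    simp only [this]
  | succ r ih =>
    intro v η ω Q M hQ hM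
    have hc : ∀ i : Fin 3, cls (top (mix v (r + 1) η ω)) Q M i = cls (top ω) Q M i := by
      intro i
      unfold cls
      apply Finset.filter_congr
      intro u hu
      have : ¬ (v ∈ Q ∨ u = v) := by
        rintro (h | h)
        · exact hQ h
        · exact hM (h ▸ hu)
      have h2 : top (mix v (r + 1) η ω) Q u = top ω Q u := if_neg this
      rw [h2]
    simp only [F, hc]
    have h2 : ∀ i : Fin 3, (F s r (rest (mix v (r + 1) η ω)) (Q ∪ (M \ cls (top ω) Q M i)) (cls (top ω) Q M i)
        ↔ F s r (rest ω) (Q ∪ (M \ cls (top ω) Q M i)) (cls (top ω) Q M i)) := by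
      intro i
      apply ih
      · simp only [Finset.mem_union, Finset.mem_sdiff]
        rintro (h | h)
        · exact hQ h
        · exact hM h.1
      · intro h
        exact hM (Finset.mem_filter.1 h).1
    simp only [h2]

theorem mixC_mixC {α : Type} (v : V) (η ω : Finset V → V → α) :
    mixC v (mixC v η ω) (mixC v ω η) = η := by
  funext Q u
  unfold mixC
  split_ifs <;> rfl

theorem mix_mix : ∀ (r : ℕ) (v : V) (η ω : Om V L r),
    mix v r (mix v r η ω) (mix v r ω η) = η := by
  intro r
  induction r with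
  | zero => intro v η ω; exact mixC_mixC v η ω
  | succ r ih =>
    intro v η ω
    exact Prod.ext (mixC_mixC v η.1 ω.1) (ih v η.2 ω.2)

end Pool.Agent.Work.MP_af2786_co
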