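import Mathlib
import Pool.Agent.Work.MP_af2786_co.Core

set_option autoImplicit false

namespace Pool.Agent.Work.MP_af2786_co

open Finset

/-! ### Averages over finite types -/

/-- The average of a real function on a finite type. -/
noncomputable def avg {Ω : Type} [Fintype Ω] (f : Ω → ℝ) : ℝ :=
  (∑ ω, f ω) / (Fintype.card Ω : ℝ)

/-- The indicator of a proposition, as a real number. -/
noncomputable def ind (P : Prop) : ℝ := by
  classical exact if P then 1 else 0

theorem ind_nonneg (P : Prop) : 0 ≤ ind P := by
  unfold ind; split_ifs <;> norm_num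

theorem ind_le_one (P : Prop) : ind P ≤ 1 := by
  unfold ind; split_ifs <;> norm_num

theorem ind_true {P : Prop} (h : P) : ind P = 1 := by
  unfold ind; rw [if_pos h]

theorem ind_false {P : Prop} (h : ¬ P) : ind P = 0 := by
  unfold ind; rw [if_neg h]

theorem ind_congr {P Q : Prop} (h : P ↔ Q) : ind P = ind Q := by
  rw [propext h]

theorem ind_or (P Q : Prop) : ind (P ∨ Q) ≤ ind P + ind Q := by
  by_cases hP : P
  · rw [ind_true (Or.inl hP), ind_true hP]; linarith [ind_nonneg Q]
  · by_cases hQ : Q
    · rw [ind_true (Or.inr hQ), ind_true hQ]; linarith [ind_nonneg P]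
    · rw [ind_false (by tauto)]; linarith [ind_nonneg P, ind_nonneg Q]

theorem ind_exists {ι : Type} [Fintype ι] (P : ι → Prop) : ind (∃ i, P i) ≤ ∑ i, ind (P i) := by
  by_cases h : ∃ i, P i
  · rw [ind_true h]
    obtain ⟨i, hi⟩ := h
    calc (1 : ℝ) = ind (P i) := (ind_true hi).symm
      _ ≤ ∑ i, ind (P i) := Finset.single_le_sum (f := fun i => ind (P i))
          (fun j _ => ind_nonneg _) (Finset.mem_univ i)
  · rw [ind_false h]
    exact Finset.sum_nonneg (fun j _ => ind_nonneg _)

section avg

variable {Ω Ω' : Type} [Fintype Ω] [Fintype Ω']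

theorem avg_mono {f g : Ω → ℝ} (h : ∀ ω, f ω ≤ g ω) : avg f ≤ avg g := by
  unfold avg
  exact div_le_div_of_nonneg_right (Finset.sum_le_sum (fun ω _ => h ω)) (Nat.cast_nonneg _)

theorem avg_const [Nonempty Ω] (c : ℝ) : avg (fun _ : Ω => c) = c := by
  unfold avg
  rw [Finset.sum_const, Finset.card_univ, nsmul_eq_mul]
  have : (Fintype.card Ω : ℝ) ≠ 0 := Nat.cast_ne_zero.2 Fintype.card_ne_zero
  field_simp

theorem avg_add (f g : Ω → ℝ) : avg (fun ω => f ω + g ω) = avg f + avg g := by
  unfold avg
  rw [Finset.sum_add_distrib, add_div]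

theorem avg_sum {ι : Type} (s : Finset ι) (f : ι → Ω → ℝ) :
    avg (fun ω => ∑ i ∈ s, f i ω) = ∑ i ∈ s, avg (f i) := by
  unfold avg
  rw [Finset.sum_comm, Finset.sum_div]

theorem avg_mul_left (c : ℝ) (f : Ω → ℝ) : avg (fun ω => c * f ω) = c * avg f := by
  unfold avg
  rw [← Finset.mul_sum, mul_div_assoc]

theorem avg_le_of_le [Nonempty Ω] {f : Ω → ℝ} {c : ℝ} (h : ∀ ω, f ω ≤ c) : avg f ≤ c := by
  calc avg f ≤ avg (fun _ : Ω => c) := avg_mono h
    _ = c := avg_const c

theorem avg_prod (f : Ω × Ω' → ℝ) : avg f = avg (fun a => avg (fun b => f (a, b))) := by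
  unfold avg
  rw [Fintype.sum_prod_type, Fintype.card_prod, Nat.cast_mul, ← Finset.sum_div, div_div,
    mul_comm (Fintype.card Ω' : ℝ)]

theorem avg_equiv (e : Ω ≃ Ω') (f : Ω' → ℝ) : avg (fun ω => f (e ω)) = avg f := by
  unfold avg
  rw [Equiv.sum_comp e f, Fintype.card_congr e]

theorem exists_le_of_avg_lt [Nonempty Ω] {f : Ω → ℝ} {c : ℝ} (h : avg f < c) :
    ∃ ω, f ω < c := by
  by_contra hcon
  push Not at hcon
  have : c ≤ avg f := by
    calc c = avg (fun _ : Ω => c) := (avg_const c).symm
      _ ≤ avg f := avg_mono hcon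
  linarith

end avg

/-- Average over functions of a function of one coordinate sum. -/
theorem avg_shift {V : Type} [DecidableEq V] [Fintype V] {α : Type} [Fintype α] [AddCommGroup α]
    (Q M : Finset V) (u₀ : V) (hu : u₀ ∈ M) (f : α → ℝ) :
    avg (fun η : Finset V → V → α => f (∑ u ∈ M, η Q u)) = avg f := by
  classical
  have hne : Nonempty α := ⟨0⟩
  have key : ∀ a : α, avg (fun η : Finset V → V → α => f (∑ u ∈ M, η Q u))
      = avg (fun η : Finset V → V → α => f (∑ u ∈ M, η Q u + a)) := by
    intro a
    rw [← avg_equiv (Equiv.addRight (fun (_ : Finset V) (u : V) => if u = u₀ then a else 0))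
      (fun η : Finset V → V → α => f (∑ u ∈ M, η Q u))]
    congr 1
    funext η
    congr 1
    simp only [Equiv.coe_addRight, Pi.add_apply]
    rw [Finset.sum_add_distrib, Finset.sum_ite_eq' M u₀, if_pos hu]
  have h2 : avg (fun a : α => avg (fun η : Finset V → V → α => f (∑ u ∈ M, η Q u)))
      = avg (fun a : α => avg (fun η : Finset V → V → α => f (∑ u ∈ M, η Q u + a))) := by
    congr 1
    funext a
    exact key a
  rw [avg_const] at h2
  rw [h2, ← avg_prod (fun p : α × (Finset V → V → α) => f (∑ u ∈ M, p.2 Q u + p.1)),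
    ← avg_equiv (Equiv.prodComm (Finset V → V → α) α), avg_prod]
  have h3 : ∀ η : Finset V → V → α,
      avg (fun b : α => f (∑ u ∈ M, ((Equiv.prodComm (Finset V → V → α) α) (η, b)).2 Q u
        + ((Equiv.prodComm (Finset V → V → α) α) (η, b)).1)) = avg f := by
    intro η
    exact avg_equiv (Equiv.addLeft (∑ u ∈ M, η Q u)) f
  simp only [h3]
  exact avg_const _

theorem sum_ind {Ω : Type} [Fintype Ω] (P : Ω → Prop) [DecidablePred P] :
    ∑ ω, ind (P ω) = ((Finset.univ.filter P).card : ℝ) := by
  rw [Finset.card_filter, Nat.cast_sum]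
  apply Finset.sum_congr rfl
  intro ω _
  by_cases h : P ω
  · rw [ind_true h, if_pos h, Nat.cast_one]
  · rw [ind_false h, if_neg h, Nat.cast_zero]

theorem avg_avoid {V : Type} [DecidableEq V] [Fintype V] {α : Type} [Fintype α] [DecidableEq α]
    (Q M : Finset V) (j : α) :
    avg (fun η : Finset V → V → α => ind (∀ u ∈ M, η Q u ≠ j))
      = (1 - 1 / (Fintype.card α : ℝ)) ^ M.card := by
  classical
  have hpos : (0 : ℝ) < (Fintype.card α : ℝ) := by
    have : 0 < Fintype.card α := Fintype.card_pos_iff.2 ⟨j⟩
    exact_mod_cast this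
  unfold avg
  rw [sum_ind]
  have hset : (Finset.univ.filter (fun η : Finset V → V → α => ∀ u ∈ M, η Q u ≠ j))
      = Fintype.piFinset (fun Q' : Finset V => if Q' = Q then
          Fintype.piFinset (fun u : V => if u ∈ M then Finset.univ.erase j else Finset.univ)
        else Finset.univ) := by
    ext η
    simp only [Finset.mem_filter, Finset.mem_univ, true_and, Fintype.mem_piFinset]
    constructor
    · intro h Q'
      split_ifs with hQ
      · subst hQ
        rw [Fintype.mem_piFinset]
        intro u
        split_ifs with hu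
        · exact Finset.mem_erase.2 ⟨h u hu, Finset.mem_univ _⟩
        · exact Finset.mem_univ _
      · exact Finset.mem_univ _
    · intro h u hu
      have h1 := h Q
      rw [if_pos rfl, Fintype.mem_piFinset] at h1
      have h2 := h1 u
      rw [if_pos hu] at h2
      exact (Finset.mem_erase.1 h2).1
  have hcard : (Fintype.card (Finset V → V → α) : ℝ)
      = ∏ _Q' : Finset V, ∏ _u : V, (Fintype.card α : ℝ) := by
    rw [Fintype.card_fun, Fintype.card_fun]
    simp [Finset.prod_const, Finset.card_univ]
  rw [hset, Fintype.card_piFinset, hcard, Nat.cast_prod, ← Finset.prod_div_distrib]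
  have hfac : ∀ Q' : Finset V, (((if Q' = Q then
          Fintype.piFinset (fun u : V => if u ∈ M then Finset.univ.erase j else Finset.univ)
        else Finset.univ : Finset (V → α)).card : ℝ)) / ∏ _u : V, (Fintype.card α : ℝ)
      = if Q' = Q then (1 - 1 / (Fintype.card α : ℝ)) ^ M.card else 1 := by
    intro Q'
    split_ifs with hQ
    · rw [Fintype.card_piFinset, Nat.cast_prod, ← Finset.prod_div_distrib]
      have hu : ∀ u : V, (((if u ∈ M then Finset.univ.erase j else Finset.univ : Finset α)).card
          : ℝ) / (Fintype.card α : ℝ) = if u ∈ M then (1 - 1 / (Fintype.card α : ℝ)) else 1 := by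
        intro u
        split_ifs with hu
        · rw [Finset.card_erase_of_mem (Finset.mem_univ _), Finset.card_univ,
            Nat.cast_sub (Fintype.card_pos_iff.2 ⟨j⟩)]
          field_simp
          simp
        · rw [Finset.card_univ]
          exact div_self hpos.ne'
      rw [Finset.prod_congr rfl (fun u _ => hu u), Finset.prod_ite_mem, Finset.univ_inter,
        Finset.prod_const]
    · rw [Finset.card_univ, Fintype.card_fun]
      simp [Finset.prod_const, Finset.card_univ, hpos.ne']
  rw [Finset.prod_congr rfl (fun Q' _ => hfac Q'), Finset.prod_ite_eq' Finset.univ Q]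
  simp

/-- The value of a single coordinate is uniform. -/
theorem avg_coord {V : Type} [DecidableEq V] [Fintype V] {α : Type} [Fintype α] [AddCommGroup α]
    (Q : Finset V) (v : V) (f : α → ℝ) :
    avg (fun η : Finset V → V → α => f (η Q v)) = avg f := by
  have := avg_shift Q {v} v (Finset.mem_singleton_self v) f
  simpa using this

section prob

variable {V : Type} [DecidableEq V] [Fintype V] {L : ℕ} [NeZero L]

noncomputable instance instFintypeOm : ∀ r : ℕ, Fintype (Om V L r)
  | 0 => inferInstanceAs (Fintype (Finset V → V → ZMod L))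
  | r + 1 =>
    letI := instFintypeOm r
    inferInstanceAs (Fintype ((Finset V → V → Fin 3) × Om V L r))

instance instNonemptyOm : ∀ r : ℕ, Nonempty (Om V L r)
  | 0 => inferInstanceAs (Nonempty (Finset V → V → ZMod L))
  | r + 1 =>
    letI := instNonemptyOm r
    inferInstanceAs (Nonempty ((Finset V → V → Fin 3) × Om V L r))

theorem avg_succ {r : ℕ} (f : Om V L (r + 1) → ℝ) :
    avg f = avg (fun a : Finset V → V → Fin 3 => avg (fun b : Om V L r => f (a, b))) :=
  avg_prod f

theorem avg_mix (r : ℕ) (v : V) (f : Om V L r → ℝ) :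
    avg (fun ω => avg (fun η => f (mix v r η ω))) = avg f := by
  rw [← avg_prod (fun p : Om V L r × Om V L r => f (mix v r p.2 p.1))]
  let e : Om V L r × Om V L r ≃ Om V L r × Om V L r :=
    { toFun := fun p => (mix v r p.2 p.1, mix v r p.1 p.2)
      invFun := fun p => (mix v r p.2 p.1, mix v r p.1 p.2)
      left_inv := by
        rintro ⟨a, b⟩
        exact Prod.ext (mix_mix r v a b) (mix_mix r v b a)
      right_inv := by
        rintro ⟨a, b⟩
        exact Prod.ext (mix_mix r v a b) (mix_mix r v b a) }
  have h := avg_equiv e (fun p : Om V L r × Om V L r => f p.1)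
  calc avg (fun p : Om V L r × Om V L r => f (mix v r p.2 p.1))
      = avg (fun p : Om V L r × Om V L r => f p.1) := h
    _ = avg (fun a => avg (fun _ : Om V L r => f a)) := avg_prod _
    _ = avg f := by
        congr 1
        funext a
        exact avg_const _

end prob

end Pool.Agent.Work.MP_af2786_co
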