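import Mathlib
import Pool.Agent.Work.MP_af2786_co.Prob

set_option autoImplicit false

namespace Pool.Agent.Work.MP_af2786_co

open Finset

variable {V : Type} [DecidableEq V] [Fintype V] {L : ℕ} [NeZero L]

omit [Fintype V] [NeZero L] in
theorem F_zero (s : ℕ) (ω : Om V L 0) (Q M : Finset V) :
    F s 0 ω Q M ↔ ((∑ u ∈ M, base ω Q u = 0) ∨ ∃ j : ZMod L, ∀ u ∈ M, base ω Q u ≠ j) := Iff.rfl

omit [Fintype V] [NeZero L] in
theorem F_succ (s r : ℕ) (ω : Om V L (r + 1)) (Q M : Finset V) :
    F s (r + 1) ω Q M ↔ ∃ j : Fin 3,
      lab (s * 6 ^ r) (fun i => (cls (top ω) Q M i).card + if i = j then 1 else 0) = j ∧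
      F s r (rest ω) (Q ∪ (M \ cls (top ω) Q M j)) (cls (top ω) Q M j) := Iff.rfl

/-- Base level density. -/
theorem D_zero (s : ℕ) (Q M : Finset V) (v : V) (ω : Om V L 0) (hv : v ∈ Q) (hM : M.Nonempty) :
    avg (fun η : Om V L 0 => ind (F s 0 (mix v 0 η ω) Q M))
      ≤ 1 / (L : ℝ) + L * (1 - 1 / (L : ℝ)) ^ M.card := by
  have h1 : ∀ η : Om V L 0, ind (F s 0 (mix v 0 η ω) Q M)
      ≤ ind (∑ u ∈ M, base η Q u = 0) + ∑ j : ZMod L, ind (∀ u ∈ M, base η Q u ≠ j) := by
    intro η
    have hb : ∀ u : V, base (mix v 0 η ω) Q u = base η Q u := fun u => if_pos (Or.inl hv)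
    rw [ind_congr (F_zero s (mix v 0 η ω) Q M)]
    simp only [hb]
    refine le_trans (ind_or _ _) ?_
    exact add_le_add le_rfl (ind_exists _)
  obtain ⟨u₀, hu₀⟩ := hM
  have h2 : avg (fun η : Om V L 0 => ind (∑ u ∈ M, base η Q u = 0)) = 1 / (L : ℝ) := by
    have := avg_shift (α := ZMod L) Q M u₀ hu₀ (fun a => ind (a = 0))
    have h3 : avg (fun a : ZMod L => ind (a = 0)) = 1 / (L : ℝ) := by
      classical
      unfold avg
      rw [sum_ind, ZMod.card]
      congr 1
      rw [Finset.filter_eq' Finset.univ (0 : ZMod L)]
      simp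
    rw [h3] at this
    exact this
  have h4 : ∀ j : ZMod L, avg (fun η : Om V L 0 => ind (∀ u ∈ M, base η Q u ≠ j))
      = (1 - 1 / (L : ℝ)) ^ M.card := by
    intro j
    have := avg_avoid (α := ZMod L) Q M j
    rw [ZMod.card] at this
    exact this
  calc avg (fun η : Om V L 0 => ind (F s 0 (mix v 0 η ω) Q M))
      ≤ avg (fun η : Om V L 0 => ind (∑ u ∈ M, base η Q u = 0)
          + ∑ j : ZMod L, ind (∀ u ∈ M, base η Q u ≠ j)) := avg_mono h1
    _ = 1 / (L : ℝ) + ∑ j : ZMod L, (1 - 1 / (L : ℝ)) ^ M.card := by
        rw [avg_add, avg_sum, h2]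
        simp only [h4]
    _ = 1 / (L : ℝ) + L * (1 - 1 / (L : ℝ)) ^ M.card := by
        rw [Finset.sum_const, Finset.card_univ, ZMod.card, nsmul_eq_mul]

theorem sum_type_add (t : Fin 3 → ℕ) (j : Fin 3) (a : ℕ) :
    (t 0 + if (0 : Fin 3) = j then a else 0) + (t 1 + if (1 : Fin 3) = j then a else 0)
      + (t 2 + if (2 : Fin 3) = j then a else 0) = t 0 + t 1 + t 2 + a := by
  fin_cases j <;> simp <;> ring

/-- Density bound: if the context contains the fresh vertex. -/
theorem D_bound (s : ℕ) (hs : 2 ≤ s) (σ : ℝ)
    (hσ : ∀ m : ℕ, s ≤ m + 1 → 1 / (L : ℝ) + L * (1 - 1 / (L : ℝ)) ^ m ≤ σ) :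
    ∀ (r : ℕ) (v : V) (Q M : Finset V) (ω : Om V L r), v ∈ Q → s * 6 ^ r ≤ M.card + 1 →
      avg (fun η : Om V L r => ind (F s r (mix v r η ω) Q M)) ≤ 3 ^ r * σ := by
  intro r
  induction r with
  | zero =>
    intro v Q M ω hv hM
    rw [pow_zero, mul_one] at hM
    rw [pow_zero, one_mul]
    refine le_trans (D_zero s Q M v ω hv ?_) (hσ _ hM)
    rw [← Finset.card_pos]; omega
  | succ r ih =>
    intro v Q M ω hv hM
    rw [avg_succ]
    apply avg_le_of_le
    intro a
    set c := mixC v a (top ω) with hc
    have htop : ∀ b : Om V L r, top (mix v (r + 1) (a, b) ω) = c := fun b => rfl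
    have hrest : ∀ b : Om V L r, rest (mix v (r + 1) (a, b) ω) = mix v r b (rest ω) :=
      fun b => rfl
    have hstep : ∀ b : Om V L r, ind (F s (r + 1) (mix v (r + 1) (a, b) ω) Q M)
        ≤ ∑ j : Fin 3,
          ind (lab (s * 6 ^ r) (fun i => (cls c Q M i).card + if i = j then 1 else 0) = j ∧
            F s r (mix v r b (rest ω)) (Q ∪ (M \ cls c Q M j)) (cls c Q M j)) := by
      intro b
      rw [ind_congr (F_succ s r (mix v (r + 1) (a, b) ω) Q M), htop, hrest]
      exact ind_exists _
    refine le_trans (avg_mono hstep) ?_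
    rw [avg_sum]
    have hterm : ∀ j : Fin 3, avg (fun b : Om V L r =>
          ind (lab (s * 6 ^ r) (fun i => (cls c Q M i).card + if i = j then 1 else 0) = j ∧
            F s r (mix v r b (rest ω)) (Q ∪ (M \ cls c Q M j)) (cls c Q M j)))
        ≤ 3 ^ r * σ := by
      intro j
      by_cases hj : lab (s * 6 ^ r) (fun i => (cls c Q M i).card + if i = j then 1 else 0) = j
      · have hlarge := lab_large (s * 6 ^ r)
          (fun i => (cls c Q M i).card + if i = j then 1 else 0) (by
            have h1 := sum_type_add (fun i => (cls c Q M i).card) j 1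
            have h2 := cls_card_sum c Q M
            rw [h2] at h1
            refine le_of_le_of_eq ?_ h1.symm
            calc 6 * (s * 6 ^ r) = s * 6 ^ (r + 1) := by ring
              _ ≤ _ := hM)
        rw [hj] at hlarge
        simp only [if_true] at hlarge
        refine le_trans (avg_mono (fun b => ?_))
          (ih v (Q ∪ (M \ cls c Q M j)) (cls c Q M j) (rest ω)
            (Finset.mem_union_left _ hv) hlarge)
        exact le_of_eq (ind_congr (by simp only [hj, true_and]))
      · refine le_trans (avg_mono (g := fun _ => (0 : ℝ)) (fun b => ?_)) ?_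
        · rw [ind_false (fun h => hj h.1)]
        · rw [avg_const]
          have hσ0 : 0 ≤ σ := by
            refine le_trans ?_ (hσ s (by omega))
            have hL : (1 : ℝ) ≤ L := by
              have := NeZero.one_le (n := L)
              exact_mod_cast this
            have : 0 ≤ 1 - 1 / (L : ℝ) := by
              rw [sub_nonneg, div_le_one (by linarith)]; exact hL
            positivity
          positivity
    calc ∑ j : Fin 3, avg (fun b : Om V L r =>
          ind (lab (s * 6 ^ r) (fun i => (cls c Q M i).card + if i = j then 1 else 0) = j ∧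
            F s r (mix v r b (rest ω)) (Q ∪ (M \ cls c Q M j)) (cls c Q M j)))
        ≤ ∑ _j : Fin 3, 3 ^ r * σ := Finset.sum_le_sum (fun j _ => hterm j)
      _ = 3 ^ (r + 1) * σ := by
          rw [Finset.sum_const, Finset.card_univ, Fintype.card_fin, nsmul_eq_mul]
          push_cast
          ring

theorem sum_ite_three (i : Fin 3) (x y : ℝ) :
    ∑ j : Fin 3, (if j = i then x else y) = x + 2 * y := by
  fin_cases i <;> simp [Fin.sum_univ_three] <;> ring

/-- Codegree bound: the fresh vertex is added to the set. -/
theorem E_bound (s : ℕ) (hs : 2 ≤ s) (σ : ℝ)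
    (hσ : ∀ m : ℕ, s ≤ m + 1 → 1 / (L : ℝ) + L * (1 - 1 / (L : ℝ)) ^ m ≤ σ) :
    ∀ (r : ℕ) (v : V) (Q R : Finset V) (ω : Om V L r), v ∉ Q → v ∉ R →
      s * 6 ^ r ≤ R.card + 2 →
      avg (fun η : Om V L r => ind (F s r (mix v r η ω) Q (insert v R)))
        ≤ (2 / 3) ^ r + 3 ^ r * σ := by
  have hσ0 : 0 ≤ σ := by
    refine le_trans ?_ (hσ s (by omega))
    have hL : (1 : ℝ) ≤ L := by
      have := NeZero.one_le (n := L)
      exact_mod_cast this
    have : 0 ≤ 1 - 1 / (L : ℝ) := by
      rw [sub_nonneg, div_le_one (by linarith)]; exact hL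
    positivity
  intro r
  induction r with
  | zero =>
    intro v Q R ω _ _ _
    rw [pow_zero, pow_zero, one_mul]
    refine avg_le_of_le (fun η => ?_)
    linarith [ind_le_one (F s 0 (mix v 0 η ω) Q (insert v R))]
  | succ r ih =>
    intro v Q R ω hvQ hvR hR
    rw [avg_succ]
    set τ : ℝ := (2 / 3) ^ r + 3 ^ r * σ with hτ
    have hτ0 : 0 ≤ τ := by positivity
    set θ := s * 6 ^ r with hθ
    set ρ : Fin 3 → ℕ := fun i => (cls (top ω) Q R i).card with hρ
    have hρsum : ρ 0 + ρ 1 + ρ 2 = R.card := cls_card_sum (top ω) Q R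
    set g : Fin 3 → ℝ := fun i =>
      (if lab θ (fun j => ρ j + if j = i then 2 else 0) = i then τ else 0) + 2 * (3 ^ r * σ)
      with hg
    have hinner : ∀ a : Finset V → V → Fin 3,
        avg (fun b : Om V L r => ind (F s (r + 1) (mix v (r + 1) (a, b) ω) Q (insert v R)))
          ≤ g (a Q v) := by
      intro a
      set i := a Q v with hi
      set c := mixC v a (top ω) with hc
      have hcv : c Q v = i := if_pos (Or.inr rfl)
      have hcu : ∀ u ∈ R, c Q u = top ω Q u := by
        intro u hu
        exact if_neg (by rintro (h | h); exact hvQ h; exact hvR (h ▸ hu))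
      have hcls_same : cls c Q (insert v R) i = insert v (cls (top ω) Q R i) := by
        ext x
        simp only [cls, Finset.mem_filter, Finset.mem_insert]
        constructor
        · rintro ⟨h1 | h1, h2⟩
          · exact Or.inl h1
          · exact Or.inr ⟨h1, by rw [← hcu x h1]; exact h2⟩
        · rintro (h1 | ⟨h1, h2⟩)
          · exact ⟨Or.inl h1, by rw [h1]; exact hcv⟩
          · exact ⟨Or.inr h1, by rw [hcu x h1]; exact h2⟩
      have hcls_ne : ∀ j, j ≠ i → cls c Q (insert v R) j = cls (top ω) Q R j := by
        intro j hj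
        ext x
        simp only [cls, Finset.mem_filter, Finset.mem_insert]
        constructor
        · rintro ⟨h1 | h1, h2⟩
          · exfalso; rw [h1, hcv] at h2; exact hj h2.symm
          · exact ⟨h1, by rw [← hcu x h1]; exact h2⟩
        · rintro ⟨h1, h2⟩
          exact ⟨Or.inr h1, by rw [hcu x h1]; exact h2⟩
      have hvcls : ∀ j, v ∉ cls (top ω) Q R j := fun j h => hvR (Finset.mem_filter.1 h).1
      have htop : ∀ b : Om V L r, top (mix v (r + 1) (a, b) ω) = c := fun b => rfl
      have hrest : ∀ b : Om V L r, rest (mix v (r + 1) (a, b) ω) = mix v r b (rest ω) :=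
        fun b => rfl
      have hstep : ∀ b : Om V L r,
          ind (F s (r + 1) (mix v (r + 1) (a, b) ω) Q (insert v R))
          ≤ ∑ j : Fin 3,
            ind (lab θ (fun k => (cls c Q (insert v R) k).card + if k = j then 1 else 0) = j ∧
              F s r (mix v r b (rest ω)) (Q ∪ (insert v R \ cls c Q (insert v R) j))
                (cls c Q (insert v R) j)) := by
        intro b
        rw [ind_congr (F_succ s r (mix v (r + 1) (a, b) ω) Q (insert v R)), htop, hrest]
        exact ind_exists _
      refine le_trans (avg_mono hstep) ?_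
      rw [avg_sum]
      have hsumtype : ∀ j : Fin 3, 6 * θ ≤
          ((cls c Q (insert v R) 0).card + if (0 : Fin 3) = j then 1 else 0)
          + ((cls c Q (insert v R) 1).card + if (1 : Fin 3) = j then 1 else 0)
          + ((cls c Q (insert v R) 2).card + if (2 : Fin 3) = j then 1 else 0) := by
        intro j
        have h1 := sum_type_add (fun k => (cls c Q (insert v R) k).card) j 1
        rw [cls_card_sum c Q (insert v R), Finset.card_insert_of_notMem hvR] at h1
        refine le_of_le_of_eq ?_ h1.symm
        calc 6 * θ = s * 6 ^ (r + 1) := by rw [hθ]; ring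
          _ ≤ _ := by omega
      have hterm : ∀ j : Fin 3, avg (fun b : Om V L r =>
            ind (lab θ (fun k => (cls c Q (insert v R) k).card + if k = j then 1 else 0) = j ∧
              F s r (mix v r b (rest ω)) (Q ∪ (insert v R \ cls c Q (insert v R) j))
                (cls c Q (insert v R) j)))
          ≤ if j = i then (if lab θ (fun j => ρ j + if j = i then 2 else 0) = i then τ else 0)
            else 3 ^ r * σ := by
        intro j
        by_cases hlab : lab θ (fun k => (cls c Q (insert v R) k).card + if k = j then 1 else 0) = j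
        · have hlarge := lab_large θ
            (fun k => (cls c Q (insert v R) k).card + if k = j then 1 else 0) (hsumtype j)
          rw [hlab] at hlarge
          simp only [if_true] at hlarge
          by_cases hji : j = i
          · subst hji
            rw [if_pos rfl]
            have hfun : (fun k => (cls c Q (insert v R) k).card + if k = i then 1 else 0)
                = (fun k => ρ k + if k = i then 2 else 0) := by
              funext k
              by_cases hk : k = i
              · rw [hk, hcls_same, Finset.card_insert_of_notMem (hvcls i), if_pos rfl, if_pos rfl]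
              · rw [hcls_ne k hk, if_neg hk, if_neg hk]
            rw [hfun] at hlab
            rw [if_pos hlab]
            rw [hcls_same] at hlarge
            rw [Finset.card_insert_of_notMem (hvcls i)] at hlarge
            have hset : insert v R \ insert v (cls (top ω) Q R i) = R \ cls (top ω) Q R i := by
              ext x
              simp only [Finset.mem_sdiff, Finset.mem_insert]
              constructor
              · rintro ⟨h1 | h1, h2⟩
                · exact absurd (Or.inl h1) h2
                · exact ⟨h1, fun h => h2 (Or.inr h)⟩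
              · rintro ⟨h1, h2⟩
                refine ⟨Or.inr h1, ?_⟩
                rintro (h | h)
                · exact hvR (h ▸ h1)
                · exact h2 h
            refine le_trans (avg_mono (fun b => ?_))
              (ih v (Q ∪ (R \ cls (top ω) Q R i)) (cls (top ω) Q R i) (rest ω) ?_ (hvcls i)
                (by omega))
            · rw [hcls_same, hset, hfun]
              exact le_of_eq (ind_congr (by simp only [hlab, true_and]))
            · simp only [Finset.mem_union, Finset.mem_sdiff]
              rintro (h | h)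
              · exact hvQ h
              · exact hvR h.1
          · rw [if_neg hji]
            rw [hcls_ne j hji] at hlarge
            refine le_trans (avg_mono (fun b => ?_))
              (D_bound s hs σ hσ r v (Q ∪ (insert v R \ cls (top ω) Q R j))
                (cls (top ω) Q R j) (rest ω) ?_ hlarge)
            · rw [hcls_ne j hji]
              exact le_of_eq (ind_congr (by simp only [hlab, true_and]))
            · apply Finset.mem_union_right
              rw [Finset.mem_sdiff]
              exact ⟨Finset.mem_insert_self _ _, hvcls j⟩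
        · refine le_trans (avg_mono (g := fun _ => (0 : ℝ)) (fun b => ?_)) ?_
          · rw [ind_false (fun h => hlab h.1)]
          · rw [avg_const]
            split_ifs <;> positivity
      refine le_trans (Finset.sum_le_sum (fun j _ => hterm j)) ?_
      rw [hg]
      rw [sum_ite_three]
    refine le_trans (avg_mono hinner) ?_
    rw [avg_coord Q v g]
    obtain ⟨i₀, hi₀⟩ := lab_not_all θ ρ
    have hgsum : ∑ i : Fin 3, g i ≤ 2 * τ + 3 * (2 * (3 ^ r * σ)) := by
      rw [hg, Finset.sum_add_distrib, Finset.sum_const, Finset.card_univ, Fintype.card_fin,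
        nsmul_eq_mul]
      have h2 : ∑ i : Fin 3, (if lab θ (fun j => ρ j + if j = i then 2 else 0) = i then τ else 0)
          ≤ ∑ i : Fin 3, (if i = i₀ then 0 else τ) := by
        apply Finset.sum_le_sum
        intro i _
        by_cases hi : i = i₀
        · subst hi
          rw [if_neg hi₀, if_pos rfl]
        · rw [if_neg hi]
          split_ifs
          · exact le_rfl
          · exact hτ0
      have h3 : ∑ i : Fin 3, (if i = i₀ then (0 : ℝ) else τ) = 2 * τ := by
        rw [sum_ite_three, zero_add]
      push_cast
      linarith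
    unfold avg
    rw [Fintype.card_fin, div_le_iff₀ (by norm_num)]
    refine le_trans hgsum ?_
    rw [hτ]
    push_cast
    have h3r : 0 ≤ (3 : ℝ) ^ r * σ := by positivity
    rw [pow_succ, pow_succ]
    nlinarith

end Pool.Agent.Work.MP_af2786_co
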