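import Mathlib

set_option autoImplicit false

namespace Pool.Agent.Work.MP_af2786_co

/-- A `k`-graph on the vertex type `V`: a set of `k`-element subsets of `V`. -/
structure KGraph (k : ℕ) (V : Type) where
  /-- the set of edges -/
  edges : Set (Finset V)
  /-- every edge has exactly `k` elements -/
  card_edge : ∀ e ∈ edges, e.card = k

/-- `H` contains a copy of `F`: some injection of the vertex sets sends edges to edges. -/
def HasCopy {k : ℕ} {W V : Type} (F : KGraph k W) (H : KGraph k V) : Prop :=
  ∃ f : W ↪ V, ∀ e ∈ F.edges, e.map f ∈ H.edges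

/-- The complete `k`-graph `K_t^k` on `t` vertices. -/
def completeKGraph (k t : ℕ) : KGraph k (Fin t) where
  edges := {e | e.card = k}
  card_edge := fun _ h => h

/-- The codegree of a set `T` in `H`: the number of vertices `v ∉ T` with `T ∪ {v}` an edge. -/
noncomputable def codegree {k n : ℕ} (H : KGraph k (Fin n)) (T : Finset (Fin n)) : ℕ :=
  {v : Fin n | v ∉ T ∧ insert v T ∈ H.edges}.ncard

/-- The minimum codegree of `H`, over all `(k-1)`-element sets of vertices. -/
noncomputable def minCodegree {k n : ℕ} (H : KGraph k (Fin n)) : ℕ :=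
  sInf {d : ℕ | ∃ T : Finset (Fin n), T.card = k - 1 ∧ codegree H T = d}

/-- `ex_{k-1}(n, F)`: the largest minimum codegree of an `F`-free `k`-graph on `n` vertices. -/
noncomputable def exCodegree {k : ℕ} {W : Type} (F : KGraph k W) (n : ℕ) : ℕ :=
  sSup {d : ℕ | ∃ H : KGraph k (Fin n), ¬ HasCopy F H ∧ minCodegree H = d}

/-- The codegree Turan density `π_{k-1}(F)`, the limsup of `ex_{k-1}(n, F) / n`. -/
noncomputable def codegreeDensity {k : ℕ} {W : Type} (F : KGraph k W) : ℝ :=
  Filter.limsup (fun n : ℕ => (exCodegree F n : ℝ) / (n : ℝ)) Filter.atTop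

end Pool.Agent.Work.MP_af2786_co
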