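import Mathlib
import Pool.Agent.Work.MP_af2786_co.Bounds
import Pool.Agent.Work.MP_af2786_co.Defs

set_option autoImplicit false

namespace Pool.Agent.Work.MP_af2786_co

open Finset

section

variable {V : Type} [DecidableEq V] [Fintype V] {L : ℕ} [NeZero L]

/-- Exponential moment bound. -/
theorem exp_moment (s : ℕ) (hs : 2 ≤ s) (σ : ℝ)
    (hσ : ∀ m : ℕ, s ≤ m + 1 → 1 / (L : ℝ) + L * (1 - 1 / (L : ℝ)) ^ m ≤ σ)
    (r : ℕ) (R : Finset V) (hR : s * 6 ^ r ≤ R.card + 2) (hτ0 : 0 ≤ (2 / 3) ^ r + 3 ^ r * σ)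
    (A : Finset V) :
    (∀ v ∈ A, v ∉ R) →
      avg (fun ω : Om V L r => ∏ v ∈ A, (1 + ind (F s r ω ∅ (insert v R))))
        ≤ (1 + ((2 / 3) ^ r + 3 ^ r * σ)) ^ A.card := by
  induction A using Finset.induction_on with
  | empty =>
    intro _
    simp only [Finset.prod_empty, Finset.card_empty, pow_zero]
    exact le_of_eq (avg_const 1)
  | insert a A ha ih =>
    intro hA
    have haR : a ∉ R := hA a (Finset.mem_insert_self _ _)
    have ih' := ih (fun v hv => hA v (Finset.mem_insert_of_mem hv))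
    rw [Finset.card_insert_of_notMem ha]
    rw [← avg_mix r a]
    set τ : ℝ := (2 / 3) ^ r + 3 ^ r * σ with hτ
    have hinner : ∀ ω : Om V L r,
        avg (fun η : Om V L r => ∏ v ∈ insert a A,
          (1 + ind (F s r (mix a r η ω) ∅ (insert v R))))
        ≤ (1 + τ) * ∏ v ∈ A, (1 + ind (F s r ω ∅ (insert v R))) := by
      intro ω
      have h1 : ∀ η : Om V L r, ∏ v ∈ insert a A, (1 + ind (F s r (mix a r η ω) ∅ (insert v R)))
          = (∏ v ∈ A, (1 + ind (F s r ω ∅ (insert v R))))
            * (1 + ind (F s r (mix a r η ω) ∅ (insert a R))) := by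
        intro η
        rw [Finset.prod_insert ha, mul_comm]
        congr 1
        apply Finset.prod_congr rfl
        intro v hv
        rw [ind_congr (F_mix s r a η ω ∅ (insert v R) (Finset.notMem_empty a) ?_)]
        rw [Finset.mem_insert]
        rintro (h | h)
        · exact ha (h ▸ hv)
        · exact haR h
      have h2 : (fun η : Om V L r => ∏ v ∈ insert a A,
          (1 + ind (F s r (mix a r η ω) ∅ (insert v R))))
          = (fun η : Om V L r => (∏ v ∈ A, (1 + ind (F s r ω ∅ (insert v R))))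
            * (1 + ind (F s r (mix a r η ω) ∅ (insert a R)))) := funext h1
      rw [h2, avg_mul_left, avg_add, avg_const, mul_comm]
      apply mul_le_mul_of_nonneg_right
      · have := E_bound s hs σ hσ r a ∅ R ω (Finset.notMem_empty a) haR hR
        linarith
      · exact Finset.prod_nonneg (fun v _ => by linarith [ind_nonneg (F s r ω ∅ (insert v R))])
    refine le_trans (avg_mono hinner) ?_
    rw [avg_mul_left, pow_succ, mul_comm]
    exact mul_le_mul_of_nonneg_right ih' (by linarith)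

/-- Existence of a good colouring. -/
theorem exists_good (s : ℕ) (hs : 2 ≤ s) (σ : ℝ)
    (hσ : ∀ m : ℕ, s ≤ m + 1 → 1 / (L : ℝ) + L * (1 - 1 / (L : ℝ)) ^ m ≤ σ)
    (r k : ℕ) (hk : s * 6 ^ r ≤ k + 1) (hk1 : 1 ≤ k) (hτ0 : 0 ≤ (2 / 3) ^ r + 3 ^ r * σ) (D : ℝ)
    (hD : ((Fintype.card V : ℕ) : ℝ) ^ (k - 1) * (1 + ((2 / 3) ^ r + 3 ^ r * σ)) ^ (Fintype.card V)
      < (2 : ℝ) ^ D) :
    ∃ ω : Om V L r, ∀ R : Finset V, R.card = k - 1 →
      ((({v : V | v ∉ R ∧ F s r ω ∅ (insert v R)}.ncard : ℕ)) : ℝ) < D := by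
  classical
  set τ : ℝ := (2 / 3) ^ r + 3 ^ r * σ with hτ
  have h1 : avg (fun ω : Om V L r => ∑ R ∈ Finset.powersetCard (k - 1) (Finset.univ : Finset V),
      ∏ v ∈ Finset.univ \ R, (1 + ind (F s r ω ∅ (insert v R)))) < (2 : ℝ) ^ D := by
    refine lt_of_le_of_lt ?_ hD
    rw [avg_sum]
    have hone : (1 : ℝ) ≤ 1 + τ := by linarith
    calc ∑ R ∈ Finset.powersetCard (k - 1) (Finset.univ : Finset V),
          avg (fun ω : Om V L r => ∏ v ∈ Finset.univ \ R, (1 + ind (F s r ω ∅ (insert v R))))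
        ≤ ∑ _R ∈ Finset.powersetCard (k - 1) (Finset.univ : Finset V),
          (1 + τ) ^ (Fintype.card V) := by
          apply Finset.sum_le_sum
          intro R hR
          have hRc : R.card = k - 1 := (Finset.mem_powersetCard.1 hR).2
          refine le_trans (exp_moment s hs σ hσ r R (by omega) hτ0 (Finset.univ \ R)
            (fun v hv => (Finset.mem_sdiff.1 hv).2)) ?_
          exact pow_le_pow_right₀ hone (Finset.card_le_univ _)
      _ = ((Fintype.card V).choose (k - 1) : ℝ) * (1 + τ) ^ (Fintype.card V) := by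
          rw [Finset.sum_const, Finset.card_powersetCard, Finset.card_univ, nsmul_eq_mul]
      _ ≤ _ := by
          apply mul_le_mul_of_nonneg_right
          · have := Nat.choose_le_pow (Fintype.card V) (k - 1)
            exact_mod_cast this
          · positivity
  obtain ⟨ω, hω⟩ := exists_le_of_avg_lt h1
  refine ⟨ω, fun R hR => ?_⟩
  have h2 : ∏ v ∈ Finset.univ \ R, (1 + ind (F s r ω ∅ (insert v R))) < (2 : ℝ) ^ D := by
    refine lt_of_le_of_lt ?_ hω
    exact Finset.single_le_sum (f := fun R => ∏ v ∈ Finset.univ \ R,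
      (1 + ind (F s r ω ∅ (insert v R))))
      (fun R _ => Finset.prod_nonneg
        (fun v _ => by linarith [ind_nonneg (F s r ω ∅ (insert v R))]))
      (Finset.mem_powersetCard.2 ⟨Finset.subset_univ _, hR⟩)
  have h3 : ∏ v ∈ Finset.univ \ R, (1 + ind (F s r ω ∅ (insert v R)))
      = (2 : ℝ) ^ ({v : V | v ∉ R ∧ F s r ω ∅ (insert v R)}.ncard) := by
    have hset : {v : V | v ∉ R ∧ F s r ω ∅ (insert v R)}
        = ((Finset.univ \ R).filter (fun v => F s r ω ∅ (insert v R)) : Finset V) := by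
      ext v
      simp
    rw [hset, Set.ncard_coe_finset, ← Finset.prod_const, Finset.prod_filter]
    apply Finset.prod_congr rfl
    intro v _
    by_cases hF : F s r ω ∅ (insert v R)
    · rw [ind_true hF, if_pos hF]; norm_num
    · rw [ind_false hF, if_neg hF]; norm_num
  rw [h3, ← Real.rpow_natCast] at h2
  exact (Real.rpow_lt_rpow_left_iff (by norm_num)).1 h2

end

end Pool.Agent.Work.MP_af2786_co
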