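import Mathlib
import Pool.Agent.Work.MP_af2786_co.Exist

set_option autoImplicit false

namespace Pool.Agent.Work.MP_af2786_co

open Finset Filter Topology

theorem codegree_le {k n : ℕ} (H : KGraph k (Fin n)) (T : Finset (Fin n)) :
    codegree H T ≤ n := by
  unfold codegree
  calc _ ≤ (Set.univ : Set (Fin n)).ncard := Set.ncard_le_ncard (Set.subset_univ _)
    _ = n := by rw [Set.ncard_univ, Nat.card_eq_fintype_card, Fintype.card_fin]

theorem minCodegree_le {k n : ℕ} (H : KGraph k (Fin n)) : minCodegree H ≤ n := by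
  unfold minCodegree
  by_cases h : {d : ℕ | ∃ T : Finset (Fin n), T.card = k - 1 ∧ codegree H T = d}.Nonempty
  · obtain ⟨T, _, hT⟩ := Nat.sInf_mem h
    rw [← hT]
    exact codegree_le H T
  · rw [Set.not_nonempty_iff_eq_empty.1 h, Nat.sInf_empty]
    exact Nat.zero_le _

theorem exCodegree_le {k : ℕ} {W : Type} (F : KGraph k W) (n : ℕ) : exCodegree F n ≤ n := by
  unfold exCodegree
  by_cases h : {d : ℕ | ∃ H : KGraph k (Fin n), ¬ HasCopy F H ∧ minCodegree H = d}.Nonempty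
  · have hb : BddAbove {d : ℕ | ∃ H : KGraph k (Fin n), ¬ HasCopy F H ∧ minCodegree H = d} :=
      ⟨n, by rintro d ⟨H, _, hH⟩; rw [← hH]; exact minCodegree_le H⟩
    obtain ⟨H, _, hH⟩ := Nat.sSup_mem h hb
    rw [← hH]
    exact minCodegree_le H
  · rw [Set.not_nonempty_iff_eq_empty.1 h]
    simp

theorem le_exCodegree {k : ℕ} {W : Type} (F : KGraph k W) (n : ℕ) (H : KGraph k (Fin n))
    (hH : ¬ HasCopy F H) : minCodegree H ≤ exCodegree F n := by
  unfold exCodegree
  apply le_csSup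
  · exact ⟨n, by rintro d ⟨H, _, hH⟩; rw [← hH]; exact minCodegree_le H⟩
  · exact ⟨H, hH, rfl⟩

/-- From a good colouring to a hypergraph. -/
theorem hypergraph_of_colouring {n L : ℕ} (s : ℕ) (hs : 1 ≤ s) (r k : ℕ)
    (hk : s * 6 ^ r ≤ k + 1) (hk1 : 1 ≤ k) (hn : k ≤ n) (ω : Om (Fin n) L r) (D : ℝ)
    (hω : ∀ R : Finset (Fin n), R.card = k - 1 →
      ((({v : Fin n | v ∉ R ∧ F s r ω ∅ (insert v R)}.ncard : ℕ)) : ℝ) < D) :
    ∃ H : KGraph k (Fin n), ¬ HasCopy (completeKGraph k (k + 1)) H ∧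
      (n : ℝ) - k - D ≤ (minCodegree H : ℝ) := by
  classical
  let H : KGraph k (Fin n) :=
    { edges := {e | e.card = k ∧ ¬ F s r ω ∅ e}
      card_edge := fun e he => he.1 }
  refine ⟨H, ?_, ?_⟩
  · rintro ⟨f, hf⟩
    have hX : ((Finset.univ : Finset (Fin (k + 1))).map f).card = k + 1 := by
      rw [Finset.card_map, Finset.card_univ, Fintype.card_fin]
    obtain ⟨u, hu, hF⟩ := cover s hs r ω ∅ ((Finset.univ : Finset (Fin (k + 1))).map f)
      (by rw [hX]; exact hk)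
    obtain ⟨i, _, hi⟩ := Finset.mem_map.1 hu
    have he := hf ((Finset.univ : Finset (Fin (k + 1))).erase i) (by
      show ((Finset.univ : Finset (Fin (k + 1))).erase i).card = k
      rw [Finset.card_erase_of_mem (Finset.mem_univ _), Finset.card_univ, Fintype.card_fin]
      rfl)
    have hmap : ((Finset.univ : Finset (Fin (k + 1))).erase i).map f
        = ((Finset.univ : Finset (Fin (k + 1))).map f).erase u := by
      rw [Finset.map_erase, hi]
    rw [hmap] at he
    exact he.2 hF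
  · have hne : {d : ℕ | ∃ T : Finset (Fin n), T.card = k - 1 ∧ codegree H T = d}.Nonempty := by
      obtain ⟨T, hT⟩ := Finset.exists_subset_card_eq (s := (Finset.univ : Finset (Fin n)))
        (n := k - 1) (by rw [Finset.card_univ, Fintype.card_fin]; omega)
      exact ⟨_, T, hT.2, rfl⟩
    obtain ⟨T, hTc, hT⟩ := Nat.sInf_mem hne
    have hmin : minCodegree H = codegree H T := hT.symm
    rw [hmin]
    have hbad := hω T hTc
    have hdecomp : n ≤ codegree H T + {v : Fin n | v ∉ T ∧ F s r ω ∅ (insert v T)}.ncard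
        + (k - 1) := by
      unfold codegree
      have hsub : (Set.univ : Set (Fin n)) ⊆ ({v : Fin n | v ∉ T ∧ insert v T ∈ H.edges}
          ∪ {v : Fin n | v ∉ T ∧ F s r ω ∅ (insert v T)}) ∪ (T : Set (Fin n)) := by
        intro v _
        by_cases hv : v ∈ T
        · exact Or.inr hv
        · by_cases hF : F s r ω ∅ (insert v T)
          · exact Or.inl (Or.inr ⟨hv, hF⟩)
          · refine Or.inl (Or.inl ⟨hv, ?_, hF⟩)
            rw [Finset.card_insert_of_notMem hv, hTc]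
            omega
      have h1 := Set.ncard_le_ncard hsub (Set.toFinite _)
      rw [Set.ncard_univ, Nat.card_eq_fintype_card, Fintype.card_fin] at h1
      refine le_trans h1 ?_
      refine le_trans (Set.ncard_union_le _ _) ?_
      rw [Set.ncard_coe_finset, hTc]
      exact Nat.add_le_add_right (Set.ncard_union_le _ _) _
    have hdecomp' : (n : ℝ) ≤ (codegree H T : ℝ)
        + ({v : Fin n | v ∉ T ∧ F s r ω ∅ (insert v T)}.ncard : ℝ) + (k : ℝ) := by
      have h2 : n ≤ codegree H T + {v : Fin n | v ∉ T ∧ F s r ω ∅ (insert v T)}.ncard + k := by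
        omega
      exact_mod_cast h2
    linarith

/-- Choice of the parameters. -/
theorem exists_params (δ : ℝ) (hδ : 0 < δ) : ∃ (r s L : ℕ) (σ : ℝ), 2 ≤ s ∧ 1 ≤ L ∧ 0 ≤ σ ∧
    (∀ m : ℕ, s ≤ m + 1 → 1 / (L : ℝ) + L * (1 - 1 / (L : ℝ)) ^ m ≤ σ) ∧
    1 + ((2 / 3) ^ r + 3 ^ r * σ) < (2 : ℝ) ^ δ := by
  set c : ℝ := (2 : ℝ) ^ δ with hc
  have hc1 : 1 < c := Real.one_lt_rpow (by norm_num) hδ
  obtain ⟨r, hr⟩ := exists_pow_lt_of_lt_one (show 0 < (c - 1) / 2 by linarith)
    (show (2 / 3 : ℝ) < 1 by norm_num)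
  set σ : ℝ := (c - 1) / (3 * 3 ^ r) with hσ
  have hσ0 : 0 < σ := by
    apply div_pos (by linarith)
    positivity
  obtain ⟨L, hL⟩ := exists_nat_gt (2 / σ)
  have hL0 : (0 : ℝ) < L := lt_trans (by positivity) hL
  have hL1 : 1 ≤ L := by
    have : 0 < L := by exact_mod_cast hL0
    omega
  have hLinv : 1 / (L : ℝ) < σ / 2 := by
    rw [div_lt_iff₀ hL0]
    rw [div_lt_iff₀ hσ0] at hL
    linarith
  have hq0 : 0 ≤ 1 - 1 / (L : ℝ) := by
    rw [sub_nonneg, div_le_one hL0]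
    exact_mod_cast hL1
  have hq1 : 1 - 1 / (L : ℝ) < 1 := by
    have : 0 < 1 / (L : ℝ) := by positivity
    linarith
  obtain ⟨m₀, hm₀⟩ := exists_pow_lt_of_lt_one (show 0 < σ / 2 / L by positivity) hq1
  refine ⟨r, m₀ + 2, L, σ, by omega, hL1, hσ0.le, ?_, ?_⟩
  · intro m hm
    have h1 : (1 - 1 / (L : ℝ)) ^ m ≤ (1 - 1 / (L : ℝ)) ^ m₀ :=
      pow_le_pow_of_le_one hq0 hq1.le (by omega)
    have h2 : (L : ℝ) * (1 - 1 / (L : ℝ)) ^ m ≤ σ / 2 := by
      have h3 : (1 - 1 / (L : ℝ)) ^ m ≤ σ / 2 / L := le_trans h1 hm₀.le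
      rw [le_div_iff₀ hL0] at h3
      linarith
    linarith
  · have h3 : (3 : ℝ) ^ r * σ = (c - 1) / 3 := by
      rw [hσ]
      field_simp
    rw [h3]
    linarith

/-- For every `δ > 0` and all large `k`, for all large `n` there is a `K_{k+1}^k`-free `k`-graph
on `n` vertices with minimum codegree at least `(1 - δ) n - k`. -/
theorem main_bound (δ : ℝ) (hδ : 0 < δ) : ∃ k₀ : ℕ, ∀ k : ℕ, k₀ ≤ k → ∀ᶠ n : ℕ in atTop,
    ∃ H : KGraph k (Fin n), ¬ HasCopy (completeKGraph k (k + 1)) H ∧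
      (n : ℝ) - k - δ * n ≤ (minCodegree H : ℝ) := by
  obtain ⟨r, s, L, σ, hs, hL, hσ0, hσ, hτ⟩ := exists_params δ hδ
  have : NeZero L := ⟨by omega⟩
  refine ⟨s * 6 ^ r + 1, fun k hk => ?_⟩
  set τ : ℝ := (2 / 3) ^ r + 3 ^ r * σ with hτdef
  have hτ0 : 0 ≤ τ := by positivity
  have hc0 : (0 : ℝ) < (2 : ℝ) ^ δ := Real.rpow_pos_of_pos (by norm_num) _
  have hratio0 : 0 ≤ (1 + τ) / (2 : ℝ) ^ δ := by positivity
  have hratio1 : (1 + τ) / (2 : ℝ) ^ δ < 1 := by rw [div_lt_one hc0]; exact hτ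
  have hlim := tendsto_pow_const_mul_const_pow_of_abs_lt_one (k - 1)
    (show |(1 + τ) / (2 : ℝ) ^ δ| < 1 by rw [abs_of_nonneg hratio0]; exact hratio1)
  have hev : ∀ᶠ n : ℕ in atTop, (n : ℝ) ^ (k - 1) * ((1 + τ) / (2 : ℝ) ^ δ) ^ n < 1 :=
    hlim.eventually (gt_mem_nhds (by norm_num))
  filter_upwards [hev, eventually_ge_atTop k] with n hn hkn
  have hD : ((Fintype.card (Fin n) : ℕ) : ℝ) ^ (k - 1) * (1 + τ) ^ (Fintype.card (Fin n))
      < (2 : ℝ) ^ (δ * n) := by
    rw [Fintype.card_fin, Real.rpow_mul (by norm_num), Real.rpow_natCast]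
    rw [div_pow, ← mul_div_assoc, div_lt_one (by positivity)] at hn
    exact hn
  obtain ⟨ω, hω⟩ := exists_good (V := Fin n) s hs σ hσ r k (by omega) (by omega) hτ0 (δ * n) hD
  exact hypergraph_of_colouring s (by omega) r k (by omega) (by omega) hkn ω (δ * n) hω

theorem codegreeDensity_le_one {k : ℕ} {W : Type} (F : KGraph k W) : codegreeDensity F ≤ 1 := by
  unfold codegreeDensity
  apply Filter.limsup_le_of_le
  · exact isCoboundedUnder_le_of_le atTop (x := 0) (fun n => by positivity)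
  · filter_upwards with n
    rcases Nat.eq_zero_or_pos n with h | h
    · subst h; simp
    · rw [div_le_one (by exact_mod_cast h)]
      exact_mod_cast exCodegree_le F n

theorem codegreeDensity_ge (δ : ℝ) (hδ : 0 < δ) : ∃ k₀ : ℕ, ∀ k : ℕ, k₀ ≤ k →
    1 - δ ≤ codegreeDensity (completeKGraph k (k + 1)) := by
  obtain ⟨k₀, hk₀⟩ := main_bound δ hδ
  refine ⟨k₀, fun k hk => ?_⟩
  unfold codegreeDensity
  have hlim : Tendsto (fun n : ℕ => 1 - δ - (k : ℝ) / (n : ℝ)) atTop (𝓝 (1 - δ)) := by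
    have := (tendsto_const_div_atTop_nhds_zero_nat (k : ℝ)).const_sub (1 - δ)
    simpa using this
  rw [← hlim.limsup_eq]
  apply Filter.limsup_le_limsup
  · filter_upwards [hk₀ k hk, eventually_gt_atTop 0] with n hn hn0
    obtain ⟨H, hH, hmin⟩ := hn
    have hn0' : (0 : ℝ) < n := by exact_mod_cast hn0
    rw [le_div_iff₀ hn0']
    have h1 : (minCodegree H : ℝ) ≤ (exCodegree (completeKGraph k (k + 1)) n : ℝ) := by
      exact_mod_cast le_exCodegree _ n H hH
    have h2 : (1 - δ - (k : ℝ) / n) * n = n - k - δ * n := by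
      field_simp
      ring
    linarith
  · exact hlim.isBoundedUnder_ge.isCoboundedUnder_le
  · refine isBoundedUnder_of ⟨1, fun n => ?_⟩
    rcases Nat.eq_zero_or_pos n with h | h
    · subst h; simp
    · show (exCodegree (completeKGraph k (k + 1)) n : ℝ) / (n : ℝ) ≤ 1
      rw [div_le_one (by exact_mod_cast h)]
      exact_mod_cast exCodegree_le _ n

theorem tendsto_one : Tendsto (fun k : ℕ => codegreeDensity (completeKGraph k (k + 1))) atTop
    (𝓝 1) := by
  rw [Metric.tendsto_atTop]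
  intro ε hε
  obtain ⟨k₀, hk₀⟩ := codegreeDensity_ge (ε / 2) (by linarith)
  refine ⟨k₀, fun k hk => ?_⟩
  rw [Real.dist_eq, abs_lt]
  constructor
  · linarith [hk₀ k hk]
  · linarith [codegreeDensity_le_one (completeKGraph k (k + 1))]

theorem not_half : ¬ ∀ k : ℕ, 2 ≤ k → codegreeDensity (completeKGraph k (k + 1)) = 1 / 2 := by
  intro h
  obtain ⟨k₀, hk₀⟩ := codegreeDensity_ge (1 / 4) (by norm_num)
  have h1 := hk₀ (max k₀ 2) (le_max_left _ _)
  have h2 := h (max k₀ 2) (le_max_right _ _)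
  rw [h2] at h1
  norm_num at h1

end Pool.Agent.Work.MP_af2786_co
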